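import Mathlib
import Pool.Agent.Lib.P3852e9.BaireAll

/-!
# Two-colourings of the plane with the property of Baire avoid at most one size

Every 2-colouring of the plane whose colour classes have the property of Baire (in particular every
Borel colouring) avoids at most one size of equilateral triangle.

Sketch of the proof. After scaling, the sizes `1` and `r > 1` are avoided. The colours agree off a
meagre set with two disjoint open sets `U`, `V` without unit triangles and without `(1, r, r)`
triangles, whose common boundary is `B = (U ∪ V)ᶜ`. Consider the pairs `(x, y)`, `x ∈ B` with generic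
circles, `|x - y| = 1`, such that both `U` and `V` meet the unit circle about `x` in every neighbourhood
of `y`. The closure `E` of the set of these pairs is invariant under the rotations
`(x, y) ↦ (x, x + ζ (y - x))`, `ζ = exp (± iπ/3), exp (± 2i arccos (1 / (2 r)))`. The main point is that
`E` is also invariant under `(x, y) ↦ (y, x)`: otherwise, near `x`, the set `B` is the union of unit
circles with centres in a compact set near `y`, and it is invariant under a reflection in each of
these circles, which is impossible. The orbit of a pair under these operations is dense, so `B` is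
the whole plane: contradiction.
-/

set_option autoImplicit false

namespace Pool.Agent.Results.MP_3852e9_co.BaireColourings

open Pool.Agent.Lib.P3852e9

/-- Scaling followed by the standard isometry from the complex plane to the Euclidean plane. -/
private noncomputable def phi (s : ℝ) (z : ℂ) : EuclideanSpace ℝ (Fin 2) :=
  Complex.orthonormalBasisOneI.repr (s • z)

private lemma dist_phi {s : ℝ} (hs : 0 ≤ s) (x y : ℂ) : dist (phi s x) (phi s y) = s * dist x y := by
  unfold phi
  rw [LinearIsometryEquiv.dist_map, dist_smul₀, Real.norm_of_nonneg hs]

private lemma phi_cont (s : ℝ) : Continuous (phi s) := by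
  unfold phi
  exact Complex.orthonormalBasisOneI.repr.continuous.comp (continuous_const_smul s)

private lemma phi_open {s : ℝ} (hs : 0 < s) : IsOpenMap (phi s) := by
  unfold phi
  exact Complex.orthonormalBasisOneI.repr.toHomeomorph.isOpenMap.comp
    (isOpenMap_smul₀ hs.ne')

/-- **Theorem.** Let `col` be a 2-colouring of the plane whose colour classes have the property of
Baire (for instance a Borel colouring). If `col` avoids the equilateral triangles of side `d`, then
it avoids those of no other side `d'`. -/
theorem result (col : EuclideanSpace ℝ (Fin 2) → Fin 2)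
    (hB : ∀ i : Fin 2, BaireMeasurableSet (col ⁻¹' {i}))
    (d d' : ℝ) (hd : 0 < d) (hd' : 0 < d') (hne : d ≠ d')
    (hav : ¬ ∃ x y z : EuclideanSpace ℝ (Fin 2),
      dist x y = d ∧ dist y z = d ∧ dist x z = d ∧ col x = col y ∧ col y = col z) :
    ∃ x y z : EuclideanSpace ℝ (Fin 2),
      dist x y = d' ∧ dist y z = d' ∧ dist x z = d' ∧ col x = col y ∧ col y = col z := by
  by_contra hav'
  -- the symmetric form
  have key : ∀ s t : ℝ, 0 < s → s < t →
      (¬ ∃ x y z : EuclideanSpace ℝ (Fin 2),
        dist x y = s ∧ dist y z = s ∧ dist x z = s ∧ col x = col y ∧ col y = col z) →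
      (¬ ∃ x y z : EuclideanSpace ℝ (Fin 2),
        dist x y = t ∧ dist y z = t ∧ dist x z = t ∧ col x = col y ∧ col y = col z) → False := by
    intro s t hs hst h1 h2
    set f : ℂ → Bool := fun z => decide (col (phi s z) = 0) with hf
    have hset : {z | f z = true} = phi s ⁻¹' (col ⁻¹' {0}) := by
      ext z
      simp [hf]
    have hfB : BaireMeasurableSet {z | f z = true} := by
      rw [hset]
      exact BaireMeasurableSet.preimage (phi_cont s) (phi_open hs) (hB 0)
    have hcol : ∀ x y : ℂ, f x = f y → col (phi s x) = col (phi s y) := by
      intro x y hxy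
      simp only [hf, decide_eq_decide] at hxy
      by_cases h0 : col (phi s x) = 0
      · rw [h0, hxy.1 h0]
      · have h0' : col (phi s y) ≠ 0 := fun h => h0 (hxy.2 h)
        omega
    have hA : ∀ ρ : ℝ, (¬ ∃ x y z : EuclideanSpace ℝ (Fin 2),
        dist x y = s * ρ ∧ dist y z = s * ρ ∧ dist x z = s * ρ ∧ col x = col y ∧
          col y = col z) → AvTri f ρ ρ ρ := by
      intro ρ hρ x y z hxy hyz hxz ⟨e1, e2⟩
      exact hρ ⟨phi s x, phi s y, phi s z, by rw [dist_phi hs.le, hxy],
        by rw [dist_phi hs.le, hyz], by rw [dist_phi hs.le, hxz], hcol _ _ e1, hcol _ _ e2⟩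
    have a1 : AvTri f 1 1 1 := hA 1 (by rwa [mul_one])
    have a2 : AvTri f (t / s) (t / s) (t / s) := hA (t / s) (by
      rwa [mul_div_cancel₀ t hs.ne'])
    have hr : 1 < t / s := by rwa [one_lt_div hs]
    exact baire_all f hfB hr a1 a2
  rcases lt_or_gt_of_ne hne with h | h
  · exact key d d' hd h hav hav'
  · exact key d' d hd' h hav' hav

end Pool.Agent.Results.MP_3852e9_co.BaireColourings
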