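import Mathlib
import Pool.Agent.Lib.P3852e9.PartB
import Pool.Agent.Lib.P3852L.PartC

/-!
# Lebesgue measurable two-colourings of the plane avoid at most one size

Every 2-colouring of the plane whose colour classes are Lebesgue measurable avoids at most one size of
equilateral triangle.

Sketch of the proof. After scaling, the sizes `1` and `r > 1` are avoided, hence also the triangles
with sides in `{1, r}`. If `r ≥ 2` one uses the circular averages of the autocorrelation (Plancherel
and a lower bound for a sum of two Bessel functions). Let `1 < r < 2`. For every point `y` for which the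
colours on the circles of radius `1` and `r` about `y` are measurable functions, a set of positive
measure of pairs of points of these circles forces the colour of `y`: otherwise the colouring of the
unit circle about `y` would be measurable with antiperiod `π / 3` and with the periods `g + g'` and
`g' - g`, where `cos g = r / 2`, `cos g' = 1 / (2 r)`, which is impossible (the group of its periods
is closed, so it is cyclic, and it does not contain `π`; an argument on roots of unity of odd order
finishes). The points `y` on a circle of radius `1` or `r` about any point `z` are of this kind, up to a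
null set of directions, because the sum of two independent points of circles has an absolutely
continuous distribution. For the same reason the measure of the forcing pairs depends continuously, in
the mean, on the centre `z`. So the colouring of the circles of radius `1` and `r` about `z` depends
continuously on `z`, in measure, at EVERY point `z`. At a point `z` of the frontier of a colour class
the circles about `z` then satisfy all the relations, which is impossible; and the frontier is not
empty.
-/

set_option autoImplicit false

namespace Pool.Agent.Results.MP_3852e9_co.MeasurableColourings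

open MeasureTheory Pool.Agent.Lib.P3852e9

/-- Scaling followed by the standard isometry from the complex plane to the Euclidean plane. -/
private noncomputable def phi (s : ℝ) (z : ℂ) : EuclideanSpace ℝ (Fin 2) :=
  Complex.orthonormalBasisOneI.repr (s • z)

private lemma dist_phi {s : ℝ} (hs : 0 ≤ s) (x y : ℂ) : dist (phi s x) (phi s y) = s * dist x y := by
  unfold phi
  rw [LinearIsometryEquiv.dist_map, dist_smul₀, Real.norm_of_nonneg hs]

private lemma phi_qmp {s : ℝ} (hs : 0 < s) :
    Measure.QuasiMeasurePreserving (phi s) volume volume := by
  unfold phi
  refine (Complex.orthonormalBasisOneI.repr.measurePreserving.quasiMeasurePreserving).comp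
    ⟨measurable_const_smul s, ?_⟩
  rw [Measure.map_addHaar_smul volume hs.ne']
  exact Measure.smul_absolutelyContinuous

/-- **Theorem.** Let `col` be a 2-colouring of the plane whose colour classes are Lebesgue
measurable. If `col` avoids the equilateral triangles of side `d`, then it avoids those of no other
side `d'`. -/
theorem result (col : EuclideanSpace ℝ (Fin 2) → Fin 2)
    (hL : ∀ i : Fin 2, NullMeasurableSet (col ⁻¹' {i}) volume)
    (d d' : ℝ) (hd : 0 < d) (hd' : 0 < d') (hne : d ≠ d')
    (hav : ¬ ∃ x y z : EuclideanSpace ℝ (Fin 2),
      dist x y = d ∧ dist y z = d ∧ dist x z = d ∧ col x = col y ∧ col y = col z) :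
    ∃ x y z : EuclideanSpace ℝ (Fin 2),
      dist x y = d' ∧ dist y z = d' ∧ dist x z = d' ∧ col x = col y ∧ col y = col z := by
  by_contra hav'
  -- the symmetric form
  have key : ∀ s t : ℝ, 0 < s → s < t →
      (¬ ∃ x y z : EuclideanSpace ℝ (Fin 2),
        dist x y = s ∧ dist y z = s ∧ dist x z = s ∧ col x = col y ∧ col y = col z) →
      (¬ ∃ x y z : EuclideanSpace ℝ (Fin 2),
        dist x y = t ∧ dist y z = t ∧ dist x z = t ∧ col x = col y ∧ col y = col z) → False := by
    intro s t hs hst h1 h2
    set f : ℂ → Bool := fun z => decide (col (phi s z) = 0) with hf
    have hset : {z | f z = true} = phi s ⁻¹' (col ⁻¹' {0}) := by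
      ext z
      simp [hf]
    have hfL : NullMeasurableSet {z | f z = true} volume := by
      rw [hset]
      exact (hL 0).preimage (phi_qmp hs)
    have hcol : ∀ x y : ℂ, f x = f y → col (phi s x) = col (phi s y) := by
      intro x y hxy
      simp only [hf, decide_eq_decide] at hxy
      by_cases h0 : col (phi s x) = 0
      · rw [h0, hxy.1 h0]
      · have h0' : col (phi s y) ≠ 0 := fun h => h0 (hxy.2 h)
        omega
    have hA : ∀ ρ : ℝ, (¬ ∃ x y z : EuclideanSpace ℝ (Fin 2),
        dist x y = s * ρ ∧ dist y z = s * ρ ∧ dist x z = s * ρ ∧ col x = col y ∧
          col y = col z) → AvTri f ρ ρ ρ := by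
      intro ρ hρ x y z hxy hyz hxz ⟨e1, e2⟩
      exact hρ ⟨phi s x, phi s y, phi s z, by rw [dist_phi hs.le, hxy],
        by rw [dist_phi hs.le, hyz], by rw [dist_phi hs.le, hxz], hcol _ _ e1, hcol _ _ e2⟩
    have a1 : AvTri f 1 1 1 := hA 1 (by rwa [mul_one])
    have a2 : AvTri f (t / s) (t / s) (t / s) := hA (t / s) (by
      rwa [mul_div_cancel₀ t hs.ne'])
    have hr : 1 < t / s := by rwa [one_lt_div hs]
    rcases lt_or_ge (t / s) 2 with h | h
    · exact Pool.Agent.Lib.P3852L.partC f hfL hr h a1 a2
    · exact partB f hfL h a1 a2
  rcases lt_or_gt_of_ne hne with h | h
  · exact key d d' hd h hav hav'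
  · exact key d' d hd' h hav' hav

end Pool.Agent.Results.MP_3852e9_co.MeasurableColourings
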